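import Pool.Agent.W458.MF.OStm
import Pool.Agent.W521.Frob

set_option autoImplicit false

namespace Pool.Agent.W12.MF

open Polynomial NumberField Pool.Agent.W521.Frob Pool.Agent.W458.MF

theorem fix : St_FIX := by
  intro h hm hdeg L _ _ _ hsplit l hl hpat
  have : Fact l.Prime := ⟨hl⟩
  obtain ⟨t, u, hum, hudeg, huirr, hfac⟩ := hpat
  obtain ⟨k, _, hchar, φ, σ, hσ⟩ := exists_frob L l hl
  let ψ : ZMod l →+* k := ZMod.castHom dvd_rfl k
  have hψ : Function.Injective ψ := ψ.injective
  have hu2 : 2 ≤ u.natDegree := by omega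
  -- no roots of `u` in the prime field
  have huroot : ∀ s : ZMod l, u.eval s ≠ 0 := by
    intro s hs
    have hd : (X - C s) ∣ u := dvd_iff_isRoot.mpr hs
    obtain ⟨v, hv⟩ := hd
    rcases huirr.isUnit_or_isUnit hv with h1 | h1
    · exact (not_isUnit_X_sub_C s) h1
    · have h2 : v.natDegree = 0 := natDegree_eq_zero_of_isUnit h1
      have h3 : u.natDegree = (X - C s).natDegree + v.natDegree := by
        rw [hv]
        apply natDegree_mul
        · exact X_sub_C_ne_zero s
        · exact h1.ne_zero
      rw [natDegree_X_sub_C, h2] at h3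
      omega
  -- separability
  have hsep0 : (h.map (Int.castRingHom (ZMod l))).Separable := by
    rw [hfac]
    apply Separable.mul (separable_X_sub_C)
    · exact PerfectField.separable_of_irreducible huirr
    · rw [(irreducible_X_sub_C t).coprime_iff_not_dvd]
      intro hd
      exact huroot t (dvd_iff_isRoot.mp hd)
  have hmapk : h.map (Int.castRingHom k) = (h.map (Int.castRingHom (ZMod l))).map ψ := by
    rw [Polynomial.map_map]
    congr 1
    exact (RingHom.ext_int _ _).symm
  have hsep : (h.map (Int.castRingHom k)).Separable := by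
    rw [hmapk]
    exact hsep0.map
  -- reductions of roots
  have hroot : ∀ b : 𝓞 L, aeval b h = 0 → φ b = ψ t ∨ (u.map ψ).eval (φ b) = 0 := by
    intro b hb
    have h1 : (h.map (Int.castRingHom k)).eval (φ b) = 0 := by
      have h2 : φ (eval₂ (Int.castRingHom (𝓞 L)) b h) = 0 := by
        have h3 : eval₂ (Int.castRingHom (𝓞 L)) b h = aeval b h := rfl
        rw [h3, hb, map_zero]
      rw [Polynomial.hom_eval₂] at h2
      rw [eval_map]
      rwa [RingHom.ext_int (φ.comp (Int.castRingHom (𝓞 L))) (Int.castRingHom k)] at h2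
    rw [hmapk, hfac, Polynomial.map_mul, eval_mul, Polynomial.map_sub, map_X, map_C, eval_sub,
      eval_X, eval_C, mul_eq_zero, sub_eq_zero] at h1
    exact h1
  -- lifting of roots
  have hlift : ∀ R : Multiset L, (∀ x ∈ R, IsIntegral ℤ x) →
      ∃ R' : Multiset (𝓞 L), R'.map (algebraMap (𝓞 L) L) = R := by
    intro R
    induction R using Multiset.induction_on with
    | empty => exact fun _ => ⟨0, rfl⟩
    | cons a s ih =>
      intro hR
      obtain ⟨R', hR'⟩ := ih fun x hx => hR x (Multiset.mem_cons_of_mem hx)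
      obtain ⟨a', ha'⟩ : ∃ a' : 𝓞 L, algebraMap (𝓞 L) L a' = a :=
        ⟨⟨a, hR a (Multiset.mem_cons_self a s)⟩, rfl⟩
      refine ⟨a' ::ₘ R', ?_⟩
      rw [Multiset.map_cons, hR', ha']
  obtain ⟨t₁, ht₁, hφt₁⟩ : ∃ t₁ : 𝓞 L, aeval t₁ h = 0 ∧ φ t₁ = ψ t := by
    obtain ⟨R', hR'⟩ := hlift (h.map (algebraMap ℤ L)).roots (by
      intro x hx
      have h1 := (mem_roots'.1 hx).2
      rw [IsRoot.def, eval_map] at h1
      exact ⟨h, hm, h1⟩)
    have h1 : h.map (algebraMap ℤ L) = (h.map (algebraMap ℤ (𝓞 L))).map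
        (algebraMap (𝓞 L) L) := by
      rw [Polynomial.map_map]
      congr 1
    have h2 : h.map (algebraMap ℤ (𝓞 L)) = (R'.map (fun a => X - C a)).prod := by
      apply Polynomial.map_injective (algebraMap (𝓞 L) L) RingOfIntegers.coe_injective
      rw [← h1, hsplit.eq_prod_roots_of_monic (hm.map _), ← hR', Polynomial.map_multiset_prod,
        Multiset.map_map, Multiset.map_map]
      congr 1
      refine Multiset.map_congr rfl fun x _ => ?_
      simp
    have h3 : (h.map (Int.castRingHom k)).eval (ψ t) = 0 := by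
      rw [hmapk, hfac, Polynomial.map_mul, eval_mul, Polynomial.map_sub, map_X, map_C, eval_sub,
        eval_X, eval_C, sub_self, zero_mul]
    have h4 : h.map (Int.castRingHom k) = (R'.map (fun a => X - C (φ a))).prod := by
      have h5 : h.map (Int.castRingHom k) = (h.map (algebraMap ℤ (𝓞 L))).map φ := by
        rw [Polynomial.map_map]
        congr 1
        exact RingHom.ext_int _ _
      rw [h5, h2, Polynomial.map_multiset_prod, Multiset.map_map]
      congr 1
      refine Multiset.map_congr rfl fun x _ => ?_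
      simp
    rw [h4, eval_multiset_prod, Multiset.map_map, Multiset.prod_eq_zero_iff, Multiset.mem_map] at h3
    obtain ⟨t', ht', ht2⟩ := h3
    refine ⟨t', ?_, ?_⟩
    · have h5 : (h.map (algebraMap ℤ (𝓞 L))).eval t' = 0 := by
        rw [h2, eval_multiset_prod, Multiset.map_map]
        refine Multiset.prod_eq_zero (Multiset.mem_map.2 ⟨t', ht', ?_⟩)
        simp
      rw [eval_map] at h5
      exact h5
    · simp only [Function.comp_apply, eval_sub, eval_X, eval_C] at ht2
      exact (sub_eq_zero.1 ht2).symm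
  have hsmul : ∀ x : 𝓞 L, ((σ • x : 𝓞 L) : L) = σ (x : L) := fun x => rfl
  have hσt : ∀ b : 𝓞 L, aeval b h = 0 → aeval (σ • b) h = 0 := by
    intro b hb
    apply RingOfIntegers.coe_injective
    have h1 := aeval_algebraMap_apply L (σ • b) h
    have h2 := aeval_algebraMap_apply L b h
    rw [hb, map_zero] at h2
    have h3 : aeval (σ ((algebraMap (𝓞 L) L) b)) h = σ (aeval ((algebraMap (𝓞 L) L) b) h) := by
      change eval₂ _ _ _ = σ (eval₂ _ _ _)
      rw [← AlgEquiv.coe_ringEquiv σ, ← RingEquiv.coe_toRingHom, Polynomial.hom_eval₂]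
      congr 1
      exact RingHom.ext_int _ _
    rw [h2, map_zero] at h3
    exact h1.symm.trans (h3.trans (map_zero _).symm)
  have hψl : ∀ x : ZMod l, ψ x ^ l = ψ x := by
    intro x
    rw [← map_pow, ZMod.pow_card]
  have hσt₁ : σ • t₁ = t₁ := by
    refine eq_of_map_eq φ h hsep (σ • t₁) t₁ (hσt t₁ ht₁) ht₁ ?_
    rw [hσ, hφt₁, hψl]
  refine ⟨σ, (t₁ : L), ?_, ?_, ?_⟩
  · rw [aeval_algebraMap_apply, ht₁, map_zero]
  · rw [← hsmul, hσt₁]
  · intro θ' hθ' hfix
    have h1 : IsIntegral ℤ θ' := ⟨h, hm, hθ'⟩
    set b : 𝓞 L := ⟨θ', h1⟩ with hbdef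
    have hbh : aeval b h = 0 := by
      apply RingOfIntegers.coe_injective
      have h5 := aeval_algebraMap_apply L b h
      exact h5.symm.trans (hθ'.trans (map_zero _).symm)
    have hσb : σ • b = b := by
      apply RingOfIntegers.coe_injective
      exact (hsmul b).trans hfix
    have hφb : φ b ^ l = φ b := by rw [← hσ, hσb]
    -- `φ b` is in the prime field
    have hprime : ∃ s : ZMod l, φ b = ψ s := by
      classical
      by_contra hno
      push Not at hno
      have hq : (X ^ l - X : k[X]) ≠ 0 := FiniteField.X_pow_card_sub_X_ne_zero k hl.one_lt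
      have hdegq : (X ^ l - X : k[X]).natDegree = l :=
        FiniteField.X_pow_card_sub_X_natDegree_eq k hl.one_lt
      have hsub : insert (φ b) (Finset.univ.image ψ) ⊆ (X ^ l - X : k[X]).roots.toFinset := by
        intro x hx
        rw [Multiset.mem_toFinset, mem_roots hq, IsRoot.def, eval_sub, eval_pow, eval_X, sub_eq_zero]
        rw [Finset.mem_insert, Finset.mem_image] at hx
        rcases hx with rfl | ⟨s, _, rfl⟩
        · exact hφb
        · exact hψl s
      have hc1 := Finset.card_le_card hsub
      have hc2 : (X ^ l - X : k[X]).roots.toFinset.card ≤ l :=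
        (Multiset.toFinset_card_le _).trans ((card_roots' _).trans hdegq.le)
      rw [Finset.card_insert_of_notMem, Finset.card_image_of_injective _ hψ, Finset.card_univ,
        ZMod.card] at hc1
      · omega
      · intro hx
        rw [Finset.mem_image] at hx
        obtain ⟨s, _, hs⟩ := hx
        exact hno s hs.symm
    obtain ⟨s, hs⟩ := hprime
    rcases hroot b hbh with h2 | h2
    · have h3 : b = t₁ := eq_of_map_eq φ h hsep b t₁ hbh ht₁ (by rw [h2, hφt₁])
      rw [← h3]
      rfl
    · exfalso
      rw [hs, eval_map, eval₂_at_apply] at h2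
      exact huroot s ((map_eq_zero ψ).1 h2)

end Pool.Agent.W12.MF
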